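import Pool.Agent.Helper60.PT.Defs
import Pool.Agent.Helper60.PT.Slice
import Mathlib.Topology.ContinuousMap.Bounded.Normed
import Mathlib.Analysis.Normed.Operator.NNNorm
import Mathlib.Analysis.Normed.Module.HahnBanach

/-!
# A trace functional for a Banach space without the approximation property

If `E` does not have the approximation property, there are bounded `x j ∈ E` and functionals `φ j`
with `∑ ‖φ j‖ < ∞`, `∑ φ j a • x j = 0` for all `a`, and `∑ φ j (x j) ≠ 0` (Grothendieck).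
-/

namespace Pool.Agent.Helper60.CV

open Filter Topology Pool.Agent.Helper60.PT
open scoped BoundedContinuousFunction

section null

variable {E : Type*} [NormedAddCommGroup E] [NormedSpace ℂ E]

omit [NormedSpace ℂ E] in
theorem net (K : Set E) (hK : IsCompact K) (r : ℝ) (hr : 0 < r) :
    ∃ F : Finset E, (∀ y ∈ F, y ∈ K) ∧ ∀ x ∈ K, ∃ y ∈ F, ‖x - y‖ ≤ r := by
  obtain ⟨t, ht, htf, hc⟩ := hK.finite_cover_balls hr
  refine ⟨htf.toFinset, fun y hy => ht (by simpa using hy), fun x hx => ?_⟩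
  obtain ⟨y, hy, hxy⟩ := Set.mem_iUnion₂.1 (hc hx)
  rw [Metric.mem_ball, dist_eq_norm] at hxy
  exact ⟨y, by simpa using hy, hxy.le⟩

/-- Compact sets are controlled by null sequences. -/
theorem null_seq (K : Set E) (hK : IsCompact K) : ∃ F : ℕ → Finset E,
    (∀ ε : ℝ, 0 < ε → ∃ N : ℕ, ∀ n, N ≤ n → ∀ y ∈ F n, ‖y‖ ≤ ε) ∧
    ∀ (T : E →L[ℂ] E) (δ : ℝ), (∀ n, ∀ y ∈ F n, ‖T y‖ ≤ δ) → ∀ x ∈ K, ‖T x‖ ≤ 2 * δ := by
  choose F hF1 hF2 using fun (K : {K : Set E // IsCompact K}) (n : ℕ) =>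
    net K.1 K.2 ((1 / 4 : ℝ) ^ (n + 1)) (by positivity)
  obtain ⟨nx, hnx⟩ : ∃ nx : ℕ → {K : Set E // IsCompact K} → {K : Set E // IsCompact K},
      ∀ n K, (nx n K).1 = (fun p : E × E => (2 : ℂ) • (p.1 - p.2)) ''
        ((K.1 ×ˢ (F K n : Set E)) ∩ {p | ‖p.1 - p.2‖ ≤ (1 / 4 : ℝ) ^ (n + 1)}) := by
    refine ⟨fun n K => ⟨(fun p : E × E => (2 : ℂ) • (p.1 - p.2)) ''
        ((K.1 ×ˢ (F K n : Set E)) ∩ {p | ‖p.1 - p.2‖ ≤ (1 / 4 : ℝ) ^ (n + 1)}), ?_⟩,
        fun n K => rfl⟩
    refine IsCompact.image ?_ (by fun_prop)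
    refine (K.2.prod (F K n).finite_toSet.isCompact).inter_right ?_
    exact isClosed_le (by fun_prop) continuous_const
  obtain ⟨KK, hK0, hK1⟩ : ∃ KK : ℕ → {K : Set E // IsCompact K}, KK 0 = ⟨K, hK⟩ ∧
      ∀ n, KK (n + 1) = nx n (KK n) :=
    ⟨fun n => Nat.rec ⟨K, hK⟩ (fun n K => nx n K) n, rfl, fun n => rfl⟩
  have hmem : ∀ n, ∀ z ∈ (KK n).1, ∃ y ∈ F (KK n) n, ∃ z' ∈ (KK (n + 1)).1,
      z = y + (1 / 2 : ℂ) • z' := by
    intro n z hz
    obtain ⟨y, hy, hzy⟩ := hF2 (KK n) n z hz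
    refine ⟨y, hy, (2 : ℂ) • (z - y), ?_, ?_⟩
    · rw [hK1, hnx]
      exact ⟨(z, y), ⟨⟨hz, hy⟩, hzy⟩, rfl⟩
    · rw [smul_smul]
      norm_num
  have hsmall : ∀ n, ∀ z ∈ (KK (n + 1)).1, ‖z‖ ≤ 2 * (1 / 4 : ℝ) ^ (n + 1) := by
    intro n z hz
    rw [hK1, hnx] at hz
    obtain ⟨p, ⟨-, hp⟩, rfl⟩ := hz
    rw [norm_smul]
    simp only [Set.mem_ofPred_eq] at hp
    norm_num
    norm_num at hp
    linarith
  refine ⟨fun n => F (KK n) n, ?_, ?_⟩
  · intro ε hε
    obtain ⟨N, hN⟩ := exists_pow_lt_of_lt_one (show 0 < ε / 2 by positivity)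
      (show (1 / 4 : ℝ) < 1 by norm_num)
    refine ⟨N + 1, fun n hn y hy => ?_⟩
    obtain ⟨m, rfl⟩ : ∃ m, n = m + 1 := ⟨n - 1, by omega⟩
    refine (hsmall m y (hF1 _ _ y hy)).trans ?_
    have h1 : (1 / 4 : ℝ) ^ (m + 1) ≤ (1 / 4 : ℝ) ^ N :=
      pow_le_pow_of_le_one (by norm_num) (by norm_num) (by omega)
    linarith
  · intro T δ hT
    obtain ⟨M, hM⟩ : ∃ M : ℝ, ∀ n, ∀ z ∈ (KK n).1, ‖T z‖ ≤ M := by
      obtain ⟨M0, hM0⟩ := hK.isBounded.exists_norm_le
      refine ⟨‖T‖ * max M0 2, fun n z hz => ?_⟩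
      refine (T.le_opNorm z).trans (mul_le_mul_of_nonneg_left ?_ (norm_nonneg _))
      rcases n with _ | n
      · rw [hK0] at hz
        exact (hM0 z hz).trans (le_max_left _ _)
      · refine (hsmall n z hz).trans (le_trans ?_ (le_max_right _ _))
        have : (1 / 4 : ℝ) ^ (n + 1) ≤ 1 := pow_le_one₀ (by norm_num) (by norm_num)
        linarith
    have key : ∀ m : ℕ, ∀ n, ∀ z ∈ (KK n).1, ‖T z‖ ≤ 2 * δ + (1 / 2) ^ m * (M + 2 * |δ|) := by
      intro m
      induction m with
      | zero =>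
        intro n z hz
        have := hM n z hz
        have h1 := neg_abs_le δ
        rw [pow_zero]
        linarith
      | succ m ih =>
        intro n z hz
        obtain ⟨y, hy, z', hz', rfl⟩ := hmem n z hz
        rw [map_add, map_smul]
        have h1 := ih (n + 1) z' hz'
        have h2 := hT n y hy
        calc ‖T y + (1 / 2 : ℂ) • T z'‖ ≤ ‖T y‖ + ‖(1 / 2 : ℂ) • T z'‖ := norm_add_le _ _
          _ = ‖T y‖ + (1 / 2) * ‖T z'‖ := by
              rw [norm_smul]
              norm_num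
          _ ≤ 2 * δ + (1 / 2) ^ (m + 1) * (M + 2 * |δ|) := by
              rw [pow_succ]
              linarith
    intro x hx
    have h1 : Tendsto (fun m : ℕ => 2 * δ + (1 / 2 : ℝ) ^ m * (M + 2 * |δ|)) atTop
        (𝓝 (2 * δ + 0 * (M + 2 * |δ|))) :=
      tendsto_const_nhds.add ((tendsto_pow_atTop_nhds_zero_of_lt_one (by norm_num)
        (by norm_num)).mul_const _)
    rw [zero_mul, add_zero] at h1
    refine ge_of_tendsto' h1 fun m => key m 0 x ?_
    rw [hK0]
    exact hx

end null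

section rep

variable {J : Type*} [TopologicalSpace J] [DiscreteTopology J]
  {E : Type*} [NormedAddCommGroup E] [NormedSpace ℂ E]

omit [NormedSpace ℂ E] in
open Classical in
/-- The restriction to a finite set. -/
theorem exists_trunc (s : Finset J) (a : J → E) : ∃ g : J →ᵇ E,
    ∀ j, g j = if j ∈ s then a j else 0 := by
  refine ⟨BoundedContinuousFunction.ofNormedAddCommGroupDiscrete
    (fun j => if j ∈ s then a j else 0) (∑ i ∈ s, ‖a i‖) fun j => ?_, fun j => rfl⟩
  split_ifs with h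
  · exact Finset.single_le_sum (f := fun i => ‖a i‖) (fun i _ => norm_nonneg _) h
  · rw [norm_zero]
    exact Finset.sum_nonneg fun i _ => norm_nonneg _

/-- Functionals on null families. -/
theorem c0_rep (f : (J →ᵇ E) →L[ℂ] ℂ) : ∃ φ : J → (E →L[ℂ] ℂ), (Summable fun j => ‖φ j‖) ∧
    ∀ g : J →ᵇ E, Tendsto g cofinite (𝓝 0) → HasSum (fun j => φ j (g j)) (f g) := by
  classical
  choose sg hsg using fun (j : J) (a : E) => exists_trunc {j} fun _ => a
  have hsg' : ∀ j a i, sg j a i = if i = j then a else 0 := by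
    intro j a i
    rw [hsg]
    simp
  have hsgn : ∀ j a, ‖sg j a‖ ≤ ‖a‖ := by
    intro j a
    refine (BoundedContinuousFunction.norm_le (norm_nonneg _)).2 fun i => ?_
    rw [hsg']
    split_ifs
    · exact le_rfl
    · rw [norm_zero]
      exact norm_nonneg _
  obtain ⟨φ, hφ⟩ : ∃ φ : J → (E →L[ℂ] ℂ), ∀ j a, φ j a = f (sg j a) := by
    refine ⟨fun j => LinearMap.mkContinuous
      { toFun := fun a => f (sg j a)
        map_add' := fun a b => by
          rw [← map_add]
          congr 1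
          ext i
          rw [BoundedContinuousFunction.add_apply, hsg', hsg', hsg']
          split_ifs
          · rfl
          · simp
        map_smul' := fun c a => by
          rw [RingHom.id_apply, ← map_smul]
          congr 1
          ext i
          show sg j (c • a) i = c • sg j a i
          rw [hsg', hsg']
          split_ifs
          · rfl
          · simp } ‖f‖ fun a => ?_, fun j a => rfl⟩
    exact (f.le_opNorm _).trans (mul_le_mul_of_nonneg_left (hsgn j a) (norm_nonneg _))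
  have hfs : ∀ (s : Finset J) (a : J → E) (g : J →ᵇ E), (∀ j, g j = if j ∈ s then a j else 0) →
      f g = ∑ j ∈ s, φ j (a j) := by
    intro s a g hg
    have h1 : g = ∑ j ∈ s, sg j (a j) := by
      ext i
      rw [BoundedContinuousFunction.coe_sum, Finset.sum_apply, hg]
      simp only [hsg']
      rw [Finset.sum_ite_eq]
    rw [h1, map_sum]
    exact Finset.sum_congr rfl fun j _ => (hφ j (a j)).symm
  refine ⟨φ, ?_, ?_⟩
  · refine summable_of_sum_le (c := ‖f‖) (fun j => norm_nonneg _) fun s => ?_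
    refine le_of_forall_pos_le_add fun ε hε => ?_
    have h1 : ∀ j, ∃ a : E, ‖a‖ ≤ 1 ∧ ‖φ j‖ - ε / (s.card + 1) ≤ (φ j a).re := by
      intro j
      obtain ⟨x, hx1, hx2⟩ := (φ j).exists_lt_apply_of_lt_opNorm
        (show ‖φ j‖ - ε / (s.card + 1) < ‖φ j‖ by
          have : 0 < ε / (s.card + 1) := by positivity
          linarith)
      rcases eq_or_ne (φ j x) 0 with h0 | h0
      · refine ⟨0, by simp, ?_⟩
        rw [h0, norm_zero] at hx2
        simpa using hx2.le
      · refine ⟨((‖φ j x‖ : ℂ) / φ j x) • x, ?_, ?_⟩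
        · rw [norm_smul, norm_div, Complex.norm_real, norm_norm, div_self (norm_ne_zero_iff.2 h0),
            one_mul]
          exact hx1.le
        · rw [map_smul, smul_eq_mul, div_mul_cancel₀ _ h0, Complex.ofReal_re]
          exact hx2.le
    choose a ha1 ha2 using h1
    obtain ⟨g, hg⟩ := exists_trunc s a
    have hg1 : ‖g‖ ≤ 1 := by
      refine (BoundedContinuousFunction.norm_le zero_le_one).2 fun j => ?_
      rw [hg]
      split_ifs
      · exact ha1 j
      · simp
    have h2 : ∑ j ∈ s, (φ j (a j)).re ≤ ‖f‖ := by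
      rw [← Complex.re_sum, ← hfs s a g hg]
      refine (Complex.re_le_norm _).trans ((f.le_opNorm g).trans ?_)
      calc ‖f‖ * ‖g‖ ≤ ‖f‖ * 1 := mul_le_mul_of_nonneg_left hg1 (norm_nonneg _)
        _ = ‖f‖ := mul_one _
    have h3 : ∑ j ∈ s, (‖φ j‖ - ε / (s.card + 1)) ≤ ∑ j ∈ s, (φ j (a j)).re :=
      Finset.sum_le_sum fun j _ => ha2 j
    rw [Finset.sum_sub_distrib, Finset.sum_const, nsmul_eq_mul] at h3
    have h4 : (s.card : ℝ) * (ε / (s.card + 1)) ≤ ε := by
      rw [mul_div_assoc', div_le_iff₀ (by positivity)]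
      nlinarith
    linarith
  · intro g hg
    rw [HasSum, Metric.tendsto_nhds]
    intro ε hε
    have h1 : {j | ¬ ‖g j‖ < ε / (‖f‖ + 1) / 2}.Finite := by
      have := (Metric.tendsto_nhds.1 hg) (ε / (‖f‖ + 1) / 2) (by positivity)
      simp only [dist_zero_right] at this
      exact this
    filter_upwards [eventually_ge_atTop h1.toFinset] with s hs
    obtain ⟨g', hg'⟩ := exists_trunc s g
    rw [← hfs s g g' hg', dist_comm, dist_eq_norm, ← map_sub]
    have h2 : ‖g - g'‖ ≤ ε / (‖f‖ + 1) / 2 := by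
      refine (BoundedContinuousFunction.norm_le (by positivity)).2 fun j => ?_
      rw [BoundedContinuousFunction.sub_apply, hg']
      split_ifs with hj
      · rw [sub_self, norm_zero]
        positivity
      · rw [sub_zero]
        by_contra hlt
        refine hj (hs ?_)
        rw [Set.Finite.mem_toFinset, Set.mem_ofPred_eq]
        intro h3
        exact hlt h3.le
    refine (f.le_opNorm _).trans_lt ?_
    calc ‖f‖ * ‖g - g'‖ ≤ ‖f‖ * (ε / (‖f‖ + 1) / 2) :=
          mul_le_mul_of_nonneg_left h2 (norm_nonneg _)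
      _ ≤ (‖f‖ + 1) * (ε / (‖f‖ + 1) / 2) := by
          refine mul_le_mul_of_nonneg_right (by linarith) (by positivity)
      _ = ε / 2 := by
          field_simp
      _ < ε := by linarith

end rep

section trace

variable {E : Type*} [NormedAddCommGroup E] [NormedSpace ℂ E]

/-- A trace functional of a Banach space without the approximation property. -/
theorem exists_trace [CompleteSpace E] (hE : ¬ HasAP E) :
    ∃ (x : ℕ × E → E) (φ : ℕ × E → (E →L[ℂ] ℂ)) (M : ℝ), (∀ j, ‖x j‖ ≤ M) ∧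
      (Summable fun j => ‖φ j‖) ∧ (∀ a : E, HasSum (fun j => φ j a • x j) 0) ∧
      ∃ t : ℂ, t ≠ 0 ∧ HasSum (fun j => φ j (x j)) t := by
  classical
  rw [HasAP] at hE
  push Not at hE
  obtain ⟨K, hK, ε, hε, hT⟩ := hE
  obtain ⟨F, hF1, hF2⟩ := null_seq K hK
  obtain ⟨x, hx⟩ : ∃ x : ℕ × E → E, ∀ j, x j = if j.2 ∈ F j.1 then j.2 else 0 := ⟨_, fun _ => rfl⟩
  let _ : TopologicalSpace (ℕ × E) := ⊥
  have _ : DiscreteTopology (ℕ × E) := ⟨rfl⟩
  have hx0 : Tendsto x cofinite (𝓝 0) := by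
    rw [Metric.tendsto_nhds]
    intro δ hδ
    obtain ⟨N, hN⟩ := hF1 (δ / 2) (by positivity)
    have h1 : ((Finset.range N).biUnion fun n => ({n} : Finset ℕ) ×ˢ F n : Set (ℕ × E)).Finite :=
      Finset.finite_toSet _
    rw [Filter.eventually_cofinite]
    refine h1.subset fun j hj => ?_
    simp only [dist_zero_right, Set.mem_ofPred_eq, not_lt] at hj
    rw [hx] at hj
    split_ifs at hj with h2
    · simp only [Finset.coe_biUnion, Finset.coe_product, Finset.coe_singleton, Set.mem_iUnion]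
      refine ⟨j.1, ?_, ?_⟩
      · simp only [Finset.coe_range, Set.mem_Iio]
        by_contra h3
        have := hN j.1 (not_lt.1 h3) j.2 h2
        linarith
      · exact ⟨rfl, h2⟩
    · rw [norm_zero] at hj
      linarith
  obtain ⟨M, hM⟩ : ∃ M : ℝ, ∀ j, ‖x j‖ ≤ M := by
    have h1 : {j | ¬ ‖x j‖ < 1}.Finite := by
      have := (Metric.tendsto_nhds.1 hx0) 1 one_pos
      simp only [dist_zero_right] at this
      exact this
    refine ⟨∑ i ∈ h1.toFinset, ‖x i‖ + 1, fun j => ?_⟩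
    by_cases h2 : ‖x j‖ < 1
    · have := Finset.sum_nonneg (s := h1.toFinset) (f := fun i => ‖x i‖) fun i _ => norm_nonneg _
      linarith
    · have := Finset.single_le_sum (s := h1.toFinset) (f := fun i => ‖x i‖)
        (fun i _ => norm_nonneg _) (by simpa using h2 : j ∈ h1.toFinset)
      linarith
  obtain ⟨ev, hev⟩ : ∃ ev : (E →L[ℂ] E) → (ℕ × E →ᵇ E), ∀ T j, ev T j = T (x j) :=
    ⟨fun T => BoundedContinuousFunction.ofNormedAddCommGroupDiscrete (fun j => T (x j)) (‖T‖ * M)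
      fun j => (T.le_opNorm _).trans (mul_le_mul_of_nonneg_left (hM j) (norm_nonneg _)),
      fun T j => rfl⟩
  have hev0 : ∀ T, Tendsto (ev T) cofinite (𝓝 0) := by
    intro T
    have h1 := (T.continuous.tendsto 0).comp hx0
    rw [map_zero] at h1
    refine h1.congr fun j => ?_
    rw [hev]
    rfl
  obtain ⟨W, hW⟩ : ∃ W : Submodule ℂ (ℕ × E →ᵇ E), ∀ g, g ∈ W ↔ ∃ T : E →L[ℂ] E,
      FiniteDimensional ℂ (LinearMap.range (T : E →ₗ[ℂ] E)) ∧ g = ev T := by
    refine ⟨{ carrier := {g | ∃ T : E →L[ℂ] E,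
                FiniteDimensional ℂ (LinearMap.range (T : E →ₗ[ℂ] E)) ∧ g = ev T}
              add_mem' := ?_
              zero_mem' := ?_
              smul_mem' := ?_ }, fun g => Iff.rfl⟩
    · rintro g g' ⟨T, h1, rfl⟩ ⟨T', h1', rfl⟩
      refine ⟨T + T', ?_, ?_⟩
      · have h2 : LinearMap.range ((T + T' : E →L[ℂ] E) : E →ₗ[ℂ] E) ≤
            LinearMap.range (T : E →ₗ[ℂ] E) ⊔ LinearMap.range (T' : E →ₗ[ℂ] E) := by
          rintro _ ⟨y, rfl⟩
          exact Submodule.add_mem_sup ⟨y, rfl⟩ ⟨y, rfl⟩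
        exact Submodule.finiteDimensional_of_le h2
      · ext j
        rw [BoundedContinuousFunction.add_apply, hev, hev, hev]
        rfl
    · refine ⟨0, ?_, ?_⟩
      · have h2 : LinearMap.range ((0 : E →L[ℂ] E) : E →ₗ[ℂ] E) ≤ ⊥ := by
          rintro _ ⟨y, rfl⟩
          simp
        exact Submodule.finiteDimensional_of_le h2
      · ext j
        rw [hev]
        rfl
    · rintro c g ⟨T, h1, rfl⟩
      refine ⟨c • T, ?_, ?_⟩
      · have h2 : LinearMap.range ((c • T : E →L[ℂ] E) : E →ₗ[ℂ] E) ≤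
            LinearMap.range (T : E →ₗ[ℂ] E) := by
          rintro _ ⟨y, rfl⟩
          exact Submodule.smul_mem _ c ⟨y, rfl⟩
        exact Submodule.finiteDimensional_of_le h2
      · ext j
        show c • ev T j = ev (c • T) j
        rw [hev, hev]
        rfl
  have hid : ev (ContinuousLinearMap.id ℂ E) ∉ W.topologicalClosure := by
    intro h1
    have h2 : ev (ContinuousLinearMap.id ℂ E) ∈ closure (W : Set (ℕ × E →ᵇ E)) := h1
    obtain ⟨g, hg, hgε⟩ := Metric.mem_closure_iff.1 h2 (ε / 2) (by positivity)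
    obtain ⟨T, hTf, rfl⟩ := (hW g).1 hg
    obtain ⟨y, hy, hyT⟩ := hT T hTf
    have h3 : ‖(T - ContinuousLinearMap.id ℂ E) y‖ ≤ 2 * (ε / 2) := by
      refine hF2 (T - ContinuousLinearMap.id ℂ E) (ε / 2) (fun n z hz => ?_) y hy
      have h4 : x (n, z) = z := by
        rw [hx]
        simp [hz]
      have h5 : dist (ev (ContinuousLinearMap.id ℂ E) (n, z)) (ev T (n, z)) ≤
          dist (ev (ContinuousLinearMap.id ℂ E)) (ev T) :=
        BoundedContinuousFunction.dist_coe_le_dist _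
      rw [hev, hev, h4, dist_comm, dist_eq_norm] at h5
      exact h5.trans hgε.le
    have h6 : (T - ContinuousLinearMap.id ℂ E) y = T y - y := rfl
    rw [h6] at h3
    linarith
  obtain ⟨f, hf2, hf1⟩ := exists_functional W.topologicalClosure
    W.isClosed_topologicalClosure _ hid
  obtain ⟨φ, hφ1, hφ2⟩ := c0_rep f
  have hW0 : ∀ T : E →L[ℂ] E, FiniteDimensional ℂ (LinearMap.range (T : E →ₗ[ℂ] E)) →
      f (ev T) = 0 := fun T hT =>
    hf1 _ (W.le_topologicalClosure ((hW _).2 ⟨T, hT, rfl⟩))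
  refine ⟨x, φ, M, hM, hφ1, fun a => ?_, f (ev (ContinuousLinearMap.id ℂ E)), hf2, ?_⟩
  · have hs : Summable fun j => φ j a • x j := by
      refine Summable.of_norm_bounded (g := fun j => ‖φ j‖ * (‖a‖ * M)) (hφ1.mul_right _)
        fun j => ?_
      rw [norm_smul, ← mul_assoc]
      exact mul_le_mul ((φ j).le_opNorm a) (hM j) (norm_nonneg _) (by positivity)
    obtain ⟨z, hz⟩ := hs
    have hz0 : z = 0 := by
      by_contra hne
      obtain ⟨ψ, -, hψ⟩ := exists_dual_vector ℂ z (norm_ne_zero_iff.2 hne)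
      have h1 : HasSum (fun j => ψ (φ j a • x j)) (ψ z) := ψ.hasSum hz
      have h2 := hφ2 (ev (ψ.smulRight a)) (hev0 _)
      rw [hW0] at h2
      · have h3 : (fun j => φ j (ev (ψ.smulRight a) j)) = fun j => ψ (φ j a • x j) := by
          funext j
          rw [hev, ContinuousLinearMap.smulRight_apply, map_smul, map_smul, smul_eq_mul,
            smul_eq_mul, mul_comm]
        rw [h3] at h2
        have h4 := h1.unique h2
        rw [hψ] at h4
        exact hne (norm_eq_zero.1 (by simpa using h4))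
      · have h3 : LinearMap.range ((ψ.smulRight a : E →L[ℂ] E) : E →ₗ[ℂ] E) ≤
            Submodule.span ℂ {a} := by
          rintro _ ⟨y, rfl⟩
          exact Submodule.smul_mem _ _ (Submodule.mem_span_singleton_self a)
        exact Submodule.finiteDimensional_of_le h3
    rwa [hz0] at hz
  · have h1 := hφ2 (ev (ContinuousLinearMap.id ℂ E)) (hev0 _)
    have h2 : (fun j => φ j (ev (ContinuousLinearMap.id ℂ E) j)) = fun j => φ j (x j) := by
      funext j
      rw [hev]
      rfl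
    rwa [h2] at h1

end trace

end Pool.Agent.Helper60.CV
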