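import Pool.Agent.Helper60.CV.Bd
import Pool.Agent.Helper60.CV.Trace
import Pool.Agent.Helper60.PT.Exist

/-!
# A commutative semisimple Banach algebra built from the dual of a Banach space

`Bt A = A* ⊕ ℓ∞(ball(A) × ℕ)` with the product `x * y = (0, ξ x ξ y)`, where
`ξ (φ, ρ) (x, t) = (φ x + 2⁻ᵗ ρ (x, t)) / 2`.
-/

namespace Pool.Agent.Helper60.CV

open Filter Topology Pool.Agent.Helper60.PT
open scoped BoundedContinuousFunction

universe u

section alg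

variable (A : Type u) [NormedAddCommGroup A] [NormedSpace ℂ A]

/-- The index set. -/
def Sx : Type u := {x : A // ‖x‖ ≤ 1} × ℕ

instance : TopologicalSpace (Sx A) := ⊥

instance : DiscreteTopology (Sx A) := ⟨rfl⟩

/-- The underlying Banach space. -/
def Bt : Type u := (A →L[ℂ] ℂ) × (Sx A →ᵇ ℂ)

noncomputable instance : NormedAddCommGroup (Bt A) :=
  inferInstanceAs (NormedAddCommGroup ((A →L[ℂ] ℂ) × (Sx A →ᵇ ℂ)))

noncomputable instance : NormedSpace ℂ (Bt A) :=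
  inferInstanceAs (NormedSpace ℂ ((A →L[ℂ] ℂ) × (Sx A →ᵇ ℂ)))

instance : CompleteSpace (Bt A) :=
  inferInstanceAs (CompleteSpace ((A →L[ℂ] ℂ) × (Sx A →ᵇ ℂ)))

variable {A}

/-- The first component. -/
noncomputable def p1 : Bt A →L[ℂ] (A →L[ℂ] ℂ) := ContinuousLinearMap.fst ℂ _ _

/-- The second component. -/
noncomputable def p2 : Bt A →L[ℂ] (Sx A →ᵇ ℂ) := ContinuousLinearMap.snd ℂ _ _

/-- The first inclusion. -/
noncomputable def i1 : (A →L[ℂ] ℂ) →L[ℂ] Bt A := ContinuousLinearMap.inl ℂ _ _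

/-- The second inclusion. -/
noncomputable def i2 : (Sx A →ᵇ ℂ) →L[ℂ] Bt A := ContinuousLinearMap.inr ℂ _ _

theorem p1_i1 (φ : A →L[ℂ] ℂ) : p1 (i1 φ) = φ := rfl
theorem p2_i1 (φ : A →L[ℂ] ℂ) : p2 (i1 φ) = 0 := rfl
theorem p1_i2 (ρ : Sx A →ᵇ ℂ) : p1 (i2 ρ) = 0 := rfl
theorem p2_i2 (ρ : Sx A →ᵇ ℂ) : p2 (i2 ρ) = ρ := rfl

theorem Bt_ext {x y : Bt A} (h1 : p1 x = p1 y) (h2 : p2 x = p2 y) : x = y := Prod.ext h1 h2

theorem norm_p1_le (x : Bt A) : ‖p1 x‖ ≤ ‖x‖ := norm_fst_le (x : (A →L[ℂ] ℂ) × (Sx A →ᵇ ℂ))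
theorem norm_p2_le (x : Bt A) : ‖p2 x‖ ≤ ‖x‖ := norm_snd_le (x : (A →L[ℂ] ℂ) × (Sx A →ᵇ ℂ))

theorem norm_i2 (ρ : Sx A →ᵇ ℂ) : ‖i2 ρ‖ = ‖ρ‖ := by
  show max ‖(0 : A →L[ℂ] ℂ)‖ ‖ρ‖ = ‖ρ‖
  rw [norm_zero]
  exact max_eq_right (norm_nonneg _)

theorem norm_i1 (φ : A →L[ℂ] ℂ) : ‖i1 φ‖ = ‖φ‖ := by
  show max ‖φ‖ ‖(0 : Sx A →ᵇ ℂ)‖ = ‖φ‖
  rw [norm_zero]
  exact max_eq_left (norm_nonneg _)

theorem exists_xi : ∃ ξ : Bt A →L[ℂ] (Sx A →ᵇ ℂ), (∀ b s, ξ b s =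
    (p1 b s.1.1 + (1 / 2) ^ s.2 * p2 b s) / 2) ∧ ∀ b, ‖ξ b‖ ≤ ‖b‖ := by
  have hb : ∀ (b : Bt A) (s : Sx A), ‖(p1 b s.1.1 + (1 / 2) ^ s.2 * p2 b s) / 2‖ ≤ ‖b‖ := by
    intro b s
    have h1 : ‖p1 b s.1.1‖ ≤ ‖b‖ := by
      refine ((p1 b).le_opNorm _).trans ?_
      calc ‖p1 b‖ * ‖s.1.1‖ ≤ ‖b‖ * 1 :=
            mul_le_mul (norm_p1_le b) s.1.2 (norm_nonneg _) (norm_nonneg _)
        _ = ‖b‖ := mul_one _
    have h2 : ‖(1 / 2 : ℂ) ^ s.2 * p2 b s‖ ≤ ‖b‖ := by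
      rw [norm_mul, norm_pow]
      have h3 : ‖(1 / 2 : ℂ)‖ ^ s.2 ≤ 1 := pow_le_one₀ (norm_nonneg _) (by norm_num)
      have h4 : ‖p2 b s‖ ≤ ‖b‖ := ((p2 b).norm_coe_le_norm s).trans (norm_p2_le b)
      calc ‖(1 / 2 : ℂ)‖ ^ s.2 * ‖p2 b s‖ ≤ 1 * ‖b‖ :=
            mul_le_mul h3 h4 (norm_nonneg _) zero_le_one
        _ = ‖b‖ := one_mul _
    rw [norm_div, Complex.norm_ofNat, div_le_iff₀ (by norm_num)]
    refine (norm_add_le _ _).trans ?_
    linarith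
  refine ⟨LinearMap.mkContinuous
    { toFun := fun b => BoundedContinuousFunction.ofNormedAddCommGroupDiscrete
        (fun s => (p1 b s.1.1 + (1 / 2) ^ s.2 * p2 b s) / 2) ‖b‖ (hb b)
      map_add' := fun b c => ?_
      map_smul' := fun c b => ?_ } 1 fun b => ?_, fun b s => rfl, fun b => ?_⟩
  · ext s
    show (p1 (b + c) s.1.1 + (1 / 2) ^ s.2 * p2 (b + c) s) / 2 =
      (p1 b s.1.1 + (1 / 2) ^ s.2 * p2 b s) / 2 + (p1 c s.1.1 + (1 / 2) ^ s.2 * p2 c s) / 2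
    rw [map_add, map_add, add_apply, BoundedContinuousFunction.add_apply]
    ring
  · ext s
    show (p1 (c • b) s.1.1 + (1 / 2) ^ s.2 * p2 (c • b) s) / 2 =
      c * ((p1 b s.1.1 + (1 / 2) ^ s.2 * p2 b s) / 2)
    rw [map_smul, map_smul, smul_apply, BoundedContinuousFunction.coe_smul, smul_eq_mul]
    simp only [smul_eq_mul]
    ring
  · rw [one_mul]
    exact (BoundedContinuousFunction.norm_le (norm_nonneg _)).2 fun s => hb b s
  · exact (BoundedContinuousFunction.norm_le (norm_nonneg _)).2 fun s => hb b s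

/-- The map `ξ`. -/
noncomputable def xi : Bt A →L[ℂ] (Sx A →ᵇ ℂ) := (exists_xi (A := A)).choose

theorem xi_apply (b : Bt A) (s : Sx A) : xi b s = (p1 b s.1.1 + (1 / 2) ^ s.2 * p2 b s) / 2 :=
  (exists_xi (A := A)).choose_spec.1 b s

theorem norm_xi_le (b : Bt A) : ‖xi b‖ ≤ ‖b‖ := (exists_xi (A := A)).choose_spec.2 b

theorem xi_i2 (ρ : Sx A →ᵇ ℂ) (s : Sx A) : xi (i2 ρ) s = (1 / 2) ^ s.2 * ρ s / 2 := by
  rw [xi_apply, p1_i2, p2_i2]
  simp

theorem eq_zero_of_xi (b : Bt A) (h : xi b = 0) : b = 0 := by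
  have h1 : ∀ s : Sx A, p1 b s.1.1 + (1 / 2) ^ s.2 * p2 b s = 0 := by
    intro s
    have h2 := xi_apply b s
    rw [h] at h2
    have h3 : (0 : Sx A →ᵇ ℂ) s = 0 := rfl
    rw [h3] at h2
    have h4 := (div_eq_zero_iff.1 h2.symm).resolve_right two_ne_zero
    exact h4
  have h2 : p1 b = 0 := by
    have h3 : ∀ x : A, ‖x‖ ≤ 1 → p1 b x = 0 := by
      intro x hx
      have h4 : ∀ t : ℕ, ‖p1 b x‖ ≤ (1 / 2) ^ t * ‖p2 b‖ := by
        intro t
        have h5 := h1 (⟨x, hx⟩, t)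
        have h6 : p1 b x = -((1 / 2) ^ t * p2 b (⟨x, hx⟩, t)) := eq_neg_of_add_eq_zero_left h5
        rw [h6, norm_neg, norm_mul, norm_pow]
        refine mul_le_mul (le_of_eq ?_) ((p2 b).norm_coe_le_norm _) (norm_nonneg _) (by positivity)
        norm_num
      have h5 : Tendsto (fun t : ℕ => (1 / 2 : ℝ) ^ t * ‖p2 b‖) atTop (𝓝 (0 * ‖p2 b‖)) :=
        (tendsto_pow_atTop_nhds_zero_of_lt_one (by norm_num) (by norm_num)).mul_const _
      rw [zero_mul] at h5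
      exact norm_le_zero_iff.1 (ge_of_tendsto' h5 h4)
    ext x
    rcases eq_or_ne x 0 with rfl | hx
    · simp
    · have h4 := h3 ((‖x‖⁻¹ : ℂ) • x) (by
        rw [norm_smul, norm_inv, Complex.norm_real, norm_norm,
          inv_mul_cancel₀ (norm_ne_zero_iff.2 hx)])
      rw [map_smul, smul_eq_mul] at h4
      have h5 : (‖x‖⁻¹ : ℂ) ≠ 0 := by
        simpa using hx
      simpa using (mul_eq_zero.1 h4).resolve_left h5
  refine Bt_ext (by rw [h2, map_zero]) ?_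
  rw [map_zero]
  ext s
  have h3 := h1 s
  rw [h2, zero_apply, zero_add] at h3
  have h4 : ((1 / 2 : ℂ)) ^ s.2 ≠ 0 := pow_ne_zero _ (by norm_num)
  exact (mul_eq_zero.1 h3).resolve_left h4

theorem bt_assoc (x y z : Bt A) :
    i2 (xi (i2 (xi x * xi y)) * xi z) = i2 (xi x * xi (i2 (xi y * xi z))) := by
  congr 1
  ext s
  rw [BoundedContinuousFunction.mul_apply, BoundedContinuousFunction.mul_apply, xi_i2, xi_i2,
    BoundedContinuousFunction.mul_apply, BoundedContinuousFunction.mul_apply]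
  ring

noncomputable instance : NonUnitalNormedRing (Bt A) :=
  { (inferInstance : NormedAddCommGroup (Bt A)) with
    mul := fun x y => i2 (xi x * xi y)
    left_distrib := fun x y z => by
      show i2 (xi x * xi (y + z)) = i2 (xi x * xi y) + i2 (xi x * xi z)
      rw [map_add, mul_add, map_add]
    right_distrib := fun x y z => by
      show i2 (xi (x + y) * xi z) = i2 (xi x * xi z) + i2 (xi y * xi z)
      rw [map_add, add_mul, map_add]
    zero_mul := fun x => by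
      show i2 (xi 0 * xi x) = 0
      rw [map_zero, zero_mul, map_zero]
    mul_zero := fun x => by
      show i2 (xi x * xi 0) = 0
      rw [map_zero, mul_zero, map_zero]
    mul_assoc := fun x y z => bt_assoc x y z
    norm_mul_le := fun x y => by
      show ‖i2 (xi x * xi y)‖ ≤ ‖x‖ * ‖y‖
      rw [norm_i2]
      exact (norm_mul_le _ _).trans
        (mul_le_mul (norm_xi_le x) (norm_xi_le y) (norm_nonneg _) (norm_nonneg _)) }

theorem bt_mul (x y : Bt A) : x * y = i2 (xi x * xi y) := rfl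

theorem bt_comm (x y : Bt A) : x * y = y * x := by rw [bt_mul, bt_mul, mul_comm]

instance : IsScalarTower ℂ (Bt A) (Bt A) where
  smul_assoc c x y := by
    rw [smul_eq_mul, smul_eq_mul, bt_mul, bt_mul, map_smul, smul_mul_assoc, map_smul]

instance : SMulCommClass ℂ (Bt A) (Bt A) where
  smul_comm c x y := by
    rw [smul_eq_mul, smul_eq_mul, bt_mul, bt_mul, map_smul, mul_smul_comm, map_smul]

/-- The characters of `Bt A`. -/
theorem exists_char (s : Sx A) : ∃ χ : Bt A →ₙₐ[ℂ] ℂ, ∀ b, χ b = (1 / 2) ^ s.2 / 2 * xi b s := by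
  refine ⟨{ toFun := fun b => (1 / 2) ^ s.2 / 2 * xi b s
            map_smul' := fun c b => ?_
            map_zero' := ?_
            map_add' := fun b c => ?_
            map_mul' := fun b c => ?_ }, fun b => rfl⟩
  · show (1 / 2) ^ s.2 / 2 * xi (c • b) s = c • ((1 / 2) ^ s.2 / 2 * xi b s)
    rw [map_smul]
    show (1 / 2) ^ s.2 / 2 * (c * xi b s) = c * ((1 / 2) ^ s.2 / 2 * xi b s)
    ring
  · show (1 / 2) ^ s.2 / 2 * xi (0 : Bt A) s = 0
    rw [map_zero]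
    exact mul_zero _
  · show (1 / 2) ^ s.2 / 2 * xi (b + c) s = (1 / 2) ^ s.2 / 2 * xi b s + (1 / 2) ^ s.2 / 2 * xi c s
    rw [map_add]
    show (1 / 2) ^ s.2 / 2 * (xi b s + xi c s) = _
    ring
  · show (1 / 2) ^ s.2 / 2 * xi (b * c) s =
      ((1 / 2) ^ s.2 / 2 * xi b s) * ((1 / 2) ^ s.2 / 2 * xi c s)
    rw [bt_mul, xi_i2]
    show (1 / 2) ^ s.2 / 2 * ((1 / 2) ^ s.2 * (xi b s * xi c s) / 2) = _
    ring

theorem char_rad {B : Type*} [NonUnitalNormedRing B] [NormedSpace ℂ B] [IsScalarTower ℂ B B]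
    [SMulCommClass ℂ B B] (χ : B →ₙₐ[ℂ] ℂ) (b : B) (hb : InRad b) : χ b = 0 := by
  by_contra hne
  have h1 := (mem_jacobson_iff _).1 hb (algebraMap ℂ (Unitization ℂ B) (-(χ b)⁻¹))
  have h2 := h1.map (Unitization.lift χ)
  have h4 : Unitization.lift χ (b : Unitization ℂ B) = χ b := by simp
  rw [map_add, map_mul, map_one, AlgHom.commutes, h4] at h2
  have h3 : (1 : ℂ) + (algebraMap ℂ ℂ) (-(χ b)⁻¹) * χ b = 0 := by
    show 1 + -(χ b)⁻¹ * χ b = 0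
    rw [neg_mul, inv_mul_cancel₀ hne]
    ring
  rw [h3] at h2
  exact not_isUnit_zero h2

theorem semisimple_bt : Semisimple (Bt A) := by
  intro b hb
  refine eq_zero_of_xi b ?_
  ext s
  obtain ⟨χ, hχ⟩ := exists_char s
  have h1 := char_rad χ b hb
  rw [hχ] at h1
  have h2 : ((1 / 2 : ℂ)) ^ s.2 / 2 ≠ 0 := div_ne_zero (pow_ne_zero _ (by norm_num)) two_ne_zero
  exact (mul_eq_zero.1 h1).resolve_left h2

end alg

end Pool.Agent.Helper60.CV
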