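import Pool.Agent.Helper60.CV.Alg

/-!
# The approximation property is necessary
-/

namespace Pool.Agent.Helper60.CV

open Filter Topology Pool.Agent.Helper60.PT
open scoped BoundedContinuousFunction

universe u w

section vanish

variable {A : Type*} [NonUnitalNormedRing A] [NormedSpace ℂ A] [IsScalarTower ℂ A A]
  [SMulCommClass ℂ A A] [CompleteSpace A]

/-- An element with zero slices is zero if the second algebra has the approximation property. -/
theorem sum_zero_of_ap {R : Type*} [NonUnitalNormedRing R] [NormedSpace ℂ R] [IsScalarTower ℂ R R]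
    [SMulCommClass ℂ R R] [CompleteSpace R] (hR : HasAP R) {J : Type*} (x : J → A) (ρ : J → R)
    (M : ℝ) (hx : ∀ j, ‖x j‖ ≤ M) (hρ : Summable fun j => ‖ρ j‖)
    (h0 : ∀ φ : A →L[ℂ] ℂ, HasSum (fun j => φ (x j) • ρ j) 0)
    {G : Type*} [NormedAddCommGroup G] [NormedSpace ℂ G] [CompleteSpace G]
    (V : A →ₗ[ℂ] R →ₗ[ℂ] G) (c : ℝ) (hc : 0 ≤ c) (hV : ∀ a r, ‖V a r‖ ≤ c * (‖a‖ * ‖r‖)) :
    HasSum (fun j => V (x j) (ρ j)) 0 := by
  have hs : Summable fun j => iot A R (x j) (ρ j) := by
    refine Summable.of_norm_bounded (g := fun j => M * ‖ρ j‖) (hρ.mul_left M) fun j => ?_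
    exact ((isProj_iot A R).norm_le _ _).trans
      (mul_le_mul_of_nonneg_right (hx j) (norm_nonneg _))
  obtain ⟨w, hw⟩ := hs
  have hw0 : w = 0 := by
    refine (isProj_iot A R).eq_zero_of_slice' (Or.inr hR) w fun φ S hS => ?_
    have h1 : HasSum (fun j => S (iot A R (x j) (ρ j))) (S w) := S.hasSum hw
    simp only [hS] at h1
    exact h1.unique (h0 φ)
  obtain ⟨T, hT, -⟩ := (isProj_iot A R).exists_ext V c hc hV
  have h1 : HasSum (fun j => T (iot A R (x j) (ρ j))) (T w) := T.hasSum hw
  rw [hw0, map_zero] at h1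
  simpa only [hT] using h1

end vanish

/-- If `A` does not have the approximation property, there is a commutative semisimple Banach
algebra `B` for which the projective tensor product of `A` and `B` is not semisimple. -/
theorem exists_bad (A : Type u) [NonUnitalNormedRing A] [NormedSpace ℂ A] [IsScalarTower ℂ A A]
    [SMulCommClass ℂ A A] [CompleteSpace A] (hA : ¬ HasAP A)
    (C : Type w) [NonUnitalNormedRing C] [NormedSpace ℂ C] [IsScalarTower ℂ C C]
    [SMulCommClass ℂ C C] [CompleteSpace C] (ι : A →ₗ[ℂ] Bt A →ₗ[ℂ] C) (h : IsProj ι) :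
    ¬ Semisimple C := by
  intro hC
  obtain ⟨x, φ, M, hM, hφ, ha, t, ht, htr⟩ := exists_trace hA
  have hs : Summable fun j => ι (x j) (i1 (φ j)) := by
    refine Summable.of_norm_bounded (g := fun j => M * ‖φ j‖) (hφ.mul_left M) fun j => ?_
    refine (h.norm_le _ _).trans ?_
    rw [norm_i1]
    exact mul_le_mul_of_nonneg_right (hM j) (norm_nonneg _)
  obtain ⟨u, hu⟩ := hs
  -- `u` is not zero
  have hu0 : u ≠ 0 := by
    rintro rfl
    obtain ⟨T, hT, -⟩ := h.exists_ext (G := ℂ)
      (LinearMap.mk₂ ℂ (fun a b => p1 b a) (by simp) (by simp) (by simp) (by simp)) 1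
      zero_le_one (fun a b => by
        rw [LinearMap.mk₂_apply, one_mul, mul_comm]
        exact ((p1 b).le_opNorm a).trans (mul_le_mul_of_nonneg_right (norm_p1_le b)
          (norm_nonneg _)))
    have h1 : HasSum (fun j => T (ι (x j) (i1 (φ j)))) (T 0) := T.hasSum hu
    rw [map_zero] at h1
    simp only [hT, LinearMap.mk₂_apply, p1_i1] at h1
    exact ht (htr.unique h1)
  -- `C u = 0`
  have hleft : ∀ c : C, c * u = 0 := by
    have h1 : ∀ (y : A) (v : Bt A), ι y v * u = 0 := by
      intro y v
      have h2 : HasSum (fun j => ι y v * ι (x j) (i1 (φ j))) (ι y v * u) := hu.mul_left _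
      have h3 := sum_zero_of_ap (R := Sx A →ᵇ ℂ) (hasAP_bcf (Sx A)) x (fun j => xi (i1 (φ j))) M hM
        (Summable.of_nonneg_of_le (fun j => norm_nonneg _)
          (fun j => (norm_xi_le _).trans (norm_i1 _).le) hφ) (fun ψ => ?_)
        (LinearMap.mk₂ ℂ (fun a r => ι (y * a) (i2 (xi v * r)))
          (fun a a' r => by rw [mul_add, map_add, LinearMap.add_apply])
          (fun c a r => by rw [mul_smul_comm, map_smul, LinearMap.smul_apply])
          (fun a r r' => by rw [mul_add, map_add, map_add])
          (fun c a r => by rw [mul_smul_comm, map_smul, map_smul])) (‖y‖ * ‖v‖) (by positivity)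
        (fun a r => ?_)
      · simp only [LinearMap.mk₂_apply] at h3
        have h4 : ∀ j, ι y v * ι (x j) (i1 (φ j)) = ι (y * x j) (i2 (xi v * xi (i1 (φ j)))) := by
          intro j
          rw [h.mul, bt_mul]
        simp only [h4] at h2
        exact h2.unique h3
      · -- slices
        have hsum : Summable fun j => ψ (x j) • xi (i1 (φ j)) := by
          refine Summable.of_norm_bounded (g := fun j => ‖ψ‖ * M * ‖φ j‖) (hφ.mul_left _)
            fun j => ?_
          rw [norm_smul]
          refine mul_le_mul ?_ ((norm_xi_le _).trans (norm_i1 _).le) (norm_nonneg _) ?_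
          · exact (ψ.le_opNorm _).trans (mul_le_mul_of_nonneg_left (hM j) (norm_nonneg _))
          · exact mul_nonneg (norm_nonneg _) ((norm_nonneg _).trans (hM j))
        obtain ⟨z, hz⟩ := hsum
        have hz0 : z = 0 := by
          ext s
          have h5 : HasSum (fun j => (ψ (x j) • xi (i1 (φ j))) s) (z s) :=
            (BoundedContinuousFunction.evalCLM ℂ s).hasSum hz
          have h6 : ∀ j, (ψ (x j) • xi (i1 (φ j))) s = (φ j s.1.1 * ψ (x j)) / 2 := by
            intro j
            show ψ (x j) * xi (i1 (φ j)) s = _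
            rw [xi_apply, p1_i1, p2_i1]
            simp only [BoundedContinuousFunction.coe_zero, Pi.zero_apply, mul_zero, add_zero]
            ring
          simp only [h6] at h5
          have h7 : HasSum (fun j => ψ (φ j s.1.1 • x j)) (ψ 0) := ψ.hasSum (ha s.1.1)
          rw [map_zero] at h7
          simp only [map_smul, smul_eq_mul] at h7
          have h8 := h7.div_const 2
          rw [zero_div] at h8
          exact h5.unique h8
        rwa [hz0] at hz
      · rw [LinearMap.mk₂_apply]
        refine (h.norm_le _ _).trans ?_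
        rw [norm_i2]
        calc ‖y * a‖ * ‖xi v * r‖ ≤ (‖y‖ * ‖a‖) * (‖v‖ * ‖r‖) :=
              mul_le_mul (norm_mul_le _ _) ((norm_mul_le _ _).trans
                (mul_le_mul_of_nonneg_right (norm_xi_le v) (norm_nonneg _))) (norm_nonneg _)
                (by positivity)
          _ = ‖y‖ * ‖v‖ * (‖a‖ * ‖r‖) := by ring
    have h2 : (fun c : C => c * u) = fun _ => 0 := by
      refine h.dense.equalizer (by fun_prop) continuous_const ?_
      funext t
      simp only [Function.comp]
      induction t with
      | zero => simp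
      | tmul a b => simpa using h1 a b
      | add s t hs ht => rw [map_add, add_mul, hs, ht, add_zero]
    exact fun c => congrFun h2 c
  refine hu0 (hC u ?_)
  rw [InRad, mem_jacobson_iff]
  intro y
  have h3 : y * (u : Unitization ℂ C) = ((y.fst • u : C) : Unitization ℂ C) := by
    ext
    · simp
    · simp [hleft]
  have h4 : ((y.fst • u : C) : Unitization ℂ C) * ((y.fst • u : C) : Unitization ℂ C) = 0 := by
    rw [← Unitization.inr_mul, smul_mul_smul_comm, hleft, smul_zero, Unitization.inr_zero]
  rw [h3]
  exact ⟨⟨1 + ((y.fst • u : C) : Unitization ℂ C), 1 - ((y.fst • u : C) : Unitization ℂ C),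
    by rw [mul_sub, mul_one, add_mul, one_mul, h4]; abel,
    by rw [mul_add, mul_one, sub_mul, one_mul, h4]; abel⟩, rfl⟩

end Pool.Agent.Helper60.CV
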