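import Pool.Agent.Helper60.PT.AP
import Mathlib.Topology.ContinuousMap.Bounded.Normed
import Mathlib.Topology.MetricSpace.ProperSpace.Lemmas

/-!
# The bounded functions on a set have the approximation property
-/

namespace Pool.Agent.Helper60.CV

open Filter Topology Pool.Agent.Helper60.PT
open scoped BoundedContinuousFunction

theorem hasBAP_bcf (S : Type*) [TopologicalSpace S] [DiscreteTopology S] : HasBAP (S →ᵇ ℂ) := by
  classical
  refine ⟨1, fun K ε hε => ?_⟩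
  obtain ⟨Φ, hΦ⟩ : ∃ Φ : S → (K → ℂ), ∀ s f, Φ s f = (f : S →ᵇ ℂ) s := ⟨_, fun _ _ => rfl⟩
  have hbd : Bornology.IsBounded (Set.range Φ) := by
    rw [isBounded_iff_forall_norm_le]
    refine ⟨∑ f ∈ K, ‖f‖, ?_⟩
    rintro _ ⟨s, rfl⟩
    refine (pi_norm_le_iff_of_nonneg (Finset.sum_nonneg fun i _ => norm_nonneg _)).2 fun f => ?_
    rw [hΦ]
    exact ((f : S →ᵇ ℂ).norm_coe_le_norm s).trans
      (Finset.single_le_sum (f := fun i : S →ᵇ ℂ => ‖i‖) (fun i _ => norm_nonneg _) f.2)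
  have htb : TotallyBounded (Set.range Φ) :=
    hbd.isCompact_closure.totallyBounded.subset subset_closure
  obtain ⟨t, ht, htf, hc⟩ := Metric.finite_approx_of_totallyBounded htb ε hε
  have h1 : ∀ s, ∃ s', Φ s' ∈ t ∧ dist (Φ s) (Φ s') < ε := by
    intro s
    obtain ⟨y, hy, hsy⟩ := Set.mem_iUnion₂.1 (hc ⟨s, rfl⟩)
    obtain ⟨s', rfl⟩ := ht hy
    exact ⟨s', hy, hsy⟩
  choose r0 hr0 hr1 using h1
  -- a retraction with finite range
  obtain ⟨q, hq⟩ : ∃ q : (K → ℂ) → Option S, ∀ s, ∃ s', q (Φ s) = some s' ∧ Φ s' = Φ s := by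
    refine ⟨fun v => if h : ∃ s, Φ s = v then some h.choose else none, fun s => ?_⟩
    have h : ∃ s', Φ s' = Φ s := ⟨s, rfl⟩
    exact ⟨h.choose, by simp only [h, dite_true], h.choose_spec⟩
  choose q1 hq1 hq2 using hq
  obtain ⟨r, hr⟩ : ∃ r : S → S, ∀ s, r s = q1 (r0 s) := ⟨_, fun _ => rfl⟩
  have hrf : (Set.range r).Finite := by
    have h2 : (some '' Set.range r) ⊆ q '' t := by
      rintro _ ⟨_, ⟨s, rfl⟩, rfl⟩
      exact ⟨Φ (r0 s), hr0 s, by rw [hq1, hr]⟩
    exact Set.Finite.of_finite_image ((htf.image q).subset h2) (Option.some_injective _).injOn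
  have hrK : ∀ f ∈ K, ∀ s, ‖f (r s) - f s‖ ≤ ε := by
    intro f hf s
    have h3 : f (r s) = Φ (r0 s) ⟨f, hf⟩ := by
      rw [← hq2 (r0 s), hΦ, hr]
    have h4 : f s = Φ s ⟨f, hf⟩ := by rw [hΦ]
    rw [h3, h4, ← dist_eq_norm, dist_comm]
    exact (dist_le_pi_dist _ _ _).trans (hr1 s).le
  obtain ⟨T, hT⟩ : ∃ T : (S →ᵇ ℂ) →L[ℂ] (S →ᵇ ℂ), ∀ f s, T f s = f (r s) := by
    refine ⟨LinearMap.mkContinuous
      { toFun := fun f => f.compContinuous ⟨r, continuous_of_discreteTopology⟩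
        map_add' := fun f g => rfl
        map_smul' := fun c f => rfl } 1 fun f => ?_, fun f s => rfl⟩
    rw [one_mul]
    exact (BoundedContinuousFunction.norm_le (norm_nonneg _)).2 fun s => f.norm_coe_le_norm _
  refine ⟨T, ?_, ?_, fun f hf => ?_⟩
  · have _ : Fintype (Set.range r) := hrf.fintype
    obtain ⟨Ψ, hΨ⟩ : ∃ Ψ : (Set.range r → ℂ) →ₗ[ℂ] (S →ᵇ ℂ), ∀ v s, Ψ v s = v ⟨r s, s, rfl⟩ := by
      refine ⟨{ toFun := fun v => BoundedContinuousFunction.ofNormedAddCommGroupDiscrete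
                  (fun s => v ⟨r s, s, rfl⟩) ‖v‖ fun s => norm_le_pi_norm v _
                map_add' := fun f g => rfl
                map_smul' := fun c f => rfl }, fun v s => rfl⟩
    have h5 : LinearMap.range (T : (S →ᵇ ℂ) →ₗ[ℂ] (S →ᵇ ℂ)) ≤ LinearMap.range Ψ := by
      rintro _ ⟨f, rfl⟩
      refine ⟨fun v => f v, ?_⟩
      ext s
      rw [hΨ]
      exact (hT f s).symm
    exact Submodule.finiteDimensional_of_le h5
  · refine T.opNorm_le_bound zero_le_one fun f => ?_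
    rw [one_mul]
    refine (BoundedContinuousFunction.norm_le (norm_nonneg _)).2 fun s => ?_
    rw [hT]
    exact f.norm_coe_le_norm _
  · refine (BoundedContinuousFunction.norm_le hε.le).2 fun s => ?_
    rw [BoundedContinuousFunction.sub_apply, hT]
    exact hrK f hf s

theorem hasAP_bcf (S : Type*) [TopologicalSpace S] [DiscreteTopology S] : HasAP (S →ᵇ ℂ) :=
  (hasBAP_bcf S).hasAP

end Pool.Agent.Helper60.CV
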